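import Pool.Agent.Helper57.MR.FormDefs
import Pool.Agent.Helper14.H10.Sat

/-!
Rigidity: one side of every splitting lies in the isotropic part.
-/

namespace Helper57.MR

open Module Helper14.H10

section bil

variable {ι κ : Type*} [Fintype ι] [Fintype κ]

theorem om_eq (T : ι → κ → κ → ZMod 2) (a : ι → ZMod 2) (x y : κ → ZMod 2) :
    om T a x y = ∑ s, a s * ∑ p, ∑ q, (T s p q - T s q p) * (x p * y q) := by
  unfold om tri
  rw [← Finset.sum_sub_distrib]
  refine Finset.sum_congr rfl fun s _ => ?_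
  have h1 : ∑ p, ∑ q, a s * T s p q * y p * x q = ∑ p, ∑ q, a s * T s q p * y q * x p := by
    rw [Finset.sum_comm]
  rw [h1, Finset.mul_sum, ← Finset.sum_sub_distrib]
  refine Finset.sum_congr rfl fun p _ => ?_
  rw [Finset.mul_sum, ← Finset.sum_sub_distrib]
  refine Finset.sum_congr rfl fun q _ => ?_
  ring

omit [Fintype κ] in
theorem cast_val_sub (T : κ → κ → ZMod 2) (p q : κ) :
    ((((T p q).val : ℤ) - ((T q p).val : ℤ) : ℤ) : ZMod 2) = T p q - T q p := by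
  push_cast
  rw [ZMod.natCast_zmod_val, ZMod.natCast_zmod_val]

theorem cast_rform (T : ι → κ → κ → ZMod 2) (a : ι → ℤ) (x y : κ → ℤ) :
    ((∑ s, a s * rform (T s) x y : ℤ) : ZMod 2) = om T (red a) (red x) (red y) := by
  rw [om_eq]
  unfold rform
  rw [Int.cast_sum]
  refine Finset.sum_congr rfl fun s _ => ?_
  rw [Int.cast_mul, Int.cast_sum]
  congr 1
  refine Finset.sum_congr rfl fun p _ => ?_
  rw [Int.cast_sum]
  refine Finset.sum_congr rfl fun q _ => ?_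
  rw [Int.cast_mul, cast_val_sub, Int.cast_mul]
  rfl

theorem om_add_left (T : ι → κ → κ → ZMod 2) (a : ι → ZMod 2) (x x' y : κ → ZMod 2) :
    om T a (x + x') y = om T a x y + om T a x' y := by
  simp only [om_eq, ← Finset.sum_add_distrib, Finset.mul_sum, Pi.add_apply]
  refine Finset.sum_congr rfl fun s _ => Finset.sum_congr rfl fun p _ =>
    Finset.sum_congr rfl fun q _ => ?_
  ring

theorem om_smul_left (T : ι → κ → κ → ZMod 2) (a : ι → ZMod 2) (c : ZMod 2)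
    (x y : κ → ZMod 2) : om T a (c • x) y = c * om T a x y := by
  simp only [om_eq, Finset.mul_sum, Pi.smul_apply, smul_eq_mul]
  refine Finset.sum_congr rfl fun s _ => Finset.sum_congr rfl fun p _ =>
    Finset.sum_congr rfl fun q _ => ?_
  ring

theorem om_add_right (T : ι → κ → κ → ZMod 2) (a : ι → ZMod 2) (x y y' : κ → ZMod 2) :
    om T a x (y + y') = om T a x y + om T a x y' := by
  simp only [om_eq, ← Finset.sum_add_distrib, Finset.mul_sum, Pi.add_apply]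
  refine Finset.sum_congr rfl fun s _ => Finset.sum_congr rfl fun p _ =>
    Finset.sum_congr rfl fun q _ => ?_
  ring

theorem om_smul_right (T : ι → κ → κ → ZMod 2) (a : ι → ZMod 2) (c : ZMod 2)
    (x y : κ → ZMod 2) : om T a x (c • y) = c * om T a x y := by
  simp only [om_eq, Finset.mul_sum, Pi.smul_apply, smul_eq_mul]
  refine Finset.sum_congr rfl fun s _ => Finset.sum_congr rfl fun p _ =>
    Finset.sum_congr rfl fun q _ => ?_
  ring

theorem om_zero_left (T : ι → κ → κ → ZMod 2) (a : ι → ZMod 2) (y : κ → ZMod 2) :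
    om T a 0 y = 0 := by
  have := om_smul_left T a 0 0 y
  rwa [zero_smul, zero_mul] at this

theorem om_zero_right (T : ι → κ → κ → ZMod 2) (a : ι → ZMod 2) (x : κ → ZMod 2) :
    om T a x 0 = 0 := by
  have := om_smul_right T a 0 x 0
  rwa [zero_smul, zero_mul] at this

/-- An alternating form vanishing on a set vanishes on its span. -/
theorem om_span (T : ι → κ → κ → ZMod 2) (a : ι → ZMod 2) (S : Set (κ → ZMod 2))
    (h : ∀ x ∈ S, ∀ y ∈ S, om T a x y = 0) :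
    ∀ x ∈ Submodule.span (ZMod 2) S, ∀ y ∈ Submodule.span (ZMod 2) S, om T a x y = 0 := by
  intro x hx y hy
  induction hx using Submodule.span_induction with
  | mem x hx =>
    induction hy using Submodule.span_induction with
    | mem y hy => exact h x hx y hy
    | zero => exact om_zero_right T a x
    | add y y' _ _ h1 h2 => rw [om_add_right, h1, h2, add_zero]
    | smul c y _ h1 => rw [om_smul_right, h1, mul_zero]
  | zero => exact om_zero_left T a y
  | add x x' _ _ h1 h2 => rw [om_add_left, h1, h2, add_zero]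
  | smul c x _ h1 => rw [om_smul_left, h1, mul_zero]

end bil

section lattice

/-- Summands are saturated. -/
theorem sat_of_isCompl {V : Type*} [AddCommGroup V] [Module.IsTorsionFree ℤ V]
    {A B : Submodule ℤ V} (h : IsCompl A B) : ∀ x, (2 : ℤ) • x ∈ A → x ∈ A := by
  intro x hx
  have hx' : x ∈ A ⊔ B := by rw [h.sup_eq_top]; trivial
  obtain ⟨a, ha, b, hb, rfl⟩ := Submodule.mem_sup.1 hx'
  have h1 : (2 : ℤ) • b ∈ A := by
    have : (2 : ℤ) • b = (2 : ℤ) • (a + b) - (2 : ℤ) • a := by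
      rw [smul_add]; abel
    rw [this]
    exact A.sub_mem hx (A.smul_mem _ ha)
  have h2 : (2 : ℤ) • b ∈ A ⊓ B := ⟨h1, B.smul_mem _ hb⟩
  rw [h.inf_eq_bot, Submodule.mem_bot] at h2
  have hb0 : b = 0 := by
    rcases smul_eq_zero.1 h2 with h | h
    · norm_num at h
    · exact h
  rw [hb0, add_zero]
  exact ha

/-- The rank of a sum is at most the sum of the ranks. -/
theorem finrank_top_le {W : Type*} [AddCommGroup W] [Module.Free ℤ W] [Module.Finite ℤ W]
    (S T : Submodule ℤ W) (h : S ⊔ T = ⊤) : finrank ℤ W ≤ finrank ℤ S + finrank ℤ T := by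
  have hf : Function.Surjective (S.subtype.coprod T.subtype) := by
    rw [← LinearMap.range_eq_top, LinearMap.range_coprod, Submodule.range_subtype,
      Submodule.range_subtype, h]
  have h1 := LinearMap.finrank_le_finrank_of_surjective hf
  rwa [finrank_prod] at h1

end lattice

section main

variable {ι ν κ : Type*} [Fintype ι] [Fintype ν] [Fintype κ]

/-- The inclusion of the last factor. -/
def inc (ι ν κ : Type*) : (κ → ℤ) →ₗ[ℤ] (ι → ℤ) × (ν → ℤ) × (κ → ℤ) :=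
  LinearMap.inr ℤ (ι → ℤ) ((ν → ℤ) × (κ → ℤ)) ∘ₗ LinearMap.inr ℤ (ν → ℤ) (κ → ℤ)

omit [Fintype ι] [Fintype ν] [Fintype κ] in
theorem inc_apply (x : κ → ℤ) : inc ι ν κ x = (0, 0, x) := rfl

/-- The directions in which a family of forms vanishes on a sublattice. -/
def ann (T : ι → κ → κ → ZMod 2) (U : Submodule ℤ (κ → ℤ)) : Submodule ℤ (ι → ℤ) where
  carrier := {a | ∀ x ∈ U, ∀ y ∈ U, ∑ s, a s * rform (T s) x y = 0}
  add_mem' := by
    intro a b ha hb x hx y hy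
    have h1 := ha x hx y hy
    have h2 := hb x hx y hy
    have h3 : ∑ s, (a + b) s * rform (T s) x y =
        ∑ s, a s * rform (T s) x y + ∑ s, b s * rform (T s) x y := by
      rw [← Finset.sum_add_distrib]
      refine Finset.sum_congr rfl fun s _ => ?_
      rw [Pi.add_apply, add_mul]
    rw [h3, h1, h2, add_zero]
  zero_mem' := by
    intro x _ y _
    simp
  smul_mem' := by
    intro c a ha x hx y hy
    have h1 := ha x hx y hy
    have h3 : ∑ s, (c • a) s * rform (T s) x y = c * ∑ s, a s * rform (T s) x y := by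
      rw [Finset.mul_sum]
      refine Finset.sum_congr rfl fun s _ => ?_
      rw [Pi.smul_apply, smul_eq_mul, mul_assoc]
    rw [h3, h1, mul_zero]

theorem mem_ann (T : ι → κ → κ → ZMod 2) (U : Submodule ℤ (κ → ℤ)) (a : ι → ℤ) :
    a ∈ ann T U ↔ ∀ x ∈ U, ∀ y ∈ U, ∑ s, a s * rform (T s) x y = 0 := Iff.rfl

theorem ann_sat (T : ι → κ → κ → ZMod 2) (U : Submodule ℤ (κ → ℤ)) : Sat2 (ann T U) := by
  intro a ha
  rw [mem_ann] at ha ⊢
  intro x hx y hy
  have h1 := ha x hx y hy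
  have h3 : ∑ s, ((2 : ℤ) • a) s * rform (T s) x y = 2 * ∑ s, a s * rform (T s) x y := by
    rw [Finset.mul_sum]
    refine Finset.sum_congr rfl fun s _ => ?_
    rw [Pi.smul_apply, smul_eq_mul, mul_assoc]
  rw [h3] at h1
  omega

/-- The rank of a sublattice is controlled by its projection and by its trace on the last
factor. -/
theorem rank_le (A : Submodule ℤ ((ι → ℤ) × (ν → ℤ) × (κ → ℤ))) :
    finrank ℤ A ≤ finrank ℤ (A.map (LinearMap.fst ℤ (ι → ℤ) ((ν → ℤ) × (κ → ℤ)))) +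
      Fintype.card ν + finrank ℤ (A.comap (inc ι ν κ)) := by
  have h1 := finrank_map_add_inf_ker A (LinearMap.fst ℤ (ι → ℤ) ((ν → ℤ) × (κ → ℤ)))
  set A' := A ⊓ LinearMap.ker (LinearMap.fst ℤ (ι → ℤ) ((ν → ℤ) × (κ → ℤ))) with hA'
  let g : (ι → ℤ) × (ν → ℤ) × (κ → ℤ) →ₗ[ℤ] (ν → ℤ) :=
    LinearMap.fst ℤ (ν → ℤ) (κ → ℤ) ∘ₗ LinearMap.snd ℤ (ι → ℤ) ((ν → ℤ) × (κ → ℤ))
  have h2 := finrank_map_add_inf_ker A' g
  have h3 : finrank ℤ (A'.map g) ≤ Fintype.card ν := by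
    have := Submodule.finrank_le (A'.map g)
    rwa [finrank_pi] at this
  have h4 : A' ⊓ LinearMap.ker g = (A.comap (inc ι ν κ)).map (inc ι ν κ) := by
    ext v
    simp only [hA', Submodule.mem_inf, LinearMap.mem_ker, Submodule.mem_map,
      Submodule.mem_comap]
    constructor
    · rintro ⟨⟨hv, hv1⟩, hv2⟩
      refine ⟨v.2.2, ?_, ?_⟩
      · have : inc ι ν κ v.2.2 = v := by
          rw [inc_apply]
          exact Prod.ext hv1.symm (Prod.ext hv2.symm rfl)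
        rwa [this]
      · rw [inc_apply]
        exact Prod.ext hv1.symm (Prod.ext hv2.symm rfl)
    · rintro ⟨x, hx, rfl⟩
      exact ⟨⟨hx, rfl⟩, rfl⟩
  have hinj : Function.Injective (inc ι ν κ) := by
    intro x y hxy
    rw [inc_apply, inc_apply] at hxy
    exact (Prod.ext_iff.1 (Prod.ext_iff.1 hxy).2).2
  have h5 : finrank ℤ ((A.comap (inc ι ν κ)).map (inc ι ν κ)) =
      finrank ℤ (A.comap (inc ι ν κ)) :=
    (Submodule.equivMapOfInjective _ hinj _).finrank_eq.symm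
  rw [h4, h5] at h2
  omega

omit [Fintype ι] [Fintype ν] [Fintype κ] in
/-- The trace of a summand on the last factor is saturated. -/
theorem trace_sat {A B : Submodule ℤ ((ι → ℤ) × (ν → ℤ) × (κ → ℤ))} (h : IsCompl A B) :
    Sat2 (A.comap (inc ι ν κ)) := by
  intro x hx
  rw [Submodule.mem_comap] at hx ⊢
  rw [map_smul] at hx
  exact sat_of_isCompl h _ hx

/-- The projection of an isotropic sublattice annihilates its trace. -/
theorem map_le_ann (T : ι → κ → κ → ZMod 2)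
    (F : (ι → ℤ) × (ν → ℤ) × (κ → ℤ) → (ι → ℤ) × (ν → ℤ) × (κ → ℤ) →
      (ι → ℤ) × (ν → ℤ) × (κ → ℤ) → ℤ)
    (hF : ∀ (v : (ι → ℤ) × (ν → ℤ) × (κ → ℤ)) (x y : κ → ℤ),
      F v (0, 0, x) (0, 0, y) = 3 * ∑ s, v.1 s * rform (T s) x y)
    (A : Submodule ℤ ((ι → ℤ) × (ν → ℤ) × (κ → ℤ)))
    (hA : ∀ x ∈ A, ∀ y ∈ A, ∀ z ∈ A, F x y z = 0) :
    A.map (LinearMap.fst ℤ (ι → ℤ) ((ν → ℤ) × (κ → ℤ))) ≤ ann T (A.comap (inc ι ν κ)) := by
  rintro _ ⟨v, hv, rfl⟩
  rw [mem_ann]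
  intro x hx y hy
  have h1 := hA v hv _ hx _ hy
  rw [inc_apply, inc_apply, hF] at h1
  have h2 : (LinearMap.fst ℤ (ι → ℤ) ((ν → ℤ) × (κ → ℤ))) v = v.1 := rfl
  rw [h2]
  omega

/-- Many directions force a small trace. -/
theorem small_trace {k d : ℕ} (T : ι → κ → κ → ZMod 2) (h2 : GoodMany T k d)
    (U : Submodule ℤ (κ → ℤ)) (hU : Sat2 U) (hk : k ≤ finrank ℤ (ann T U)) :
    finrank ℤ U < 2 * d := by
  by_contra hcon
  push Not at hcon
  obtain ⟨w, hw, hwi⟩ := exists_red_independent_le (ann_sat T U) hk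
  have hcon' : d + d ≤ finrank ℤ U := by omega
  obtain ⟨u, hu, hui⟩ := exists_red_independent_le hU hcon'
  have hui' : LinearIndependent (ZMod 2)
      fun i : Fin d ⊕ Fin d => red (u (finSumFinEquiv i)) :=
    hui.comp _ finSumFinEquiv.injective
  obtain ⟨l, i, j, hne⟩ := h2 _ hwi _ hui'
  apply hne
  have h3 := (mem_ann T U (w l)).1 (hw l) _ (hu (finSumFinEquiv (Sum.inl i))) _
    (hu (finSumFinEquiv (Sum.inr j)))
  have h4 := cast_rform T (w l) (u (finSumFinEquiv (Sum.inl i)))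
    (u (finSumFinEquiv (Sum.inr j)))
  rw [h3, Int.cast_zero] at h4
  exact h4.symm

/-- One direction forces a trace of positive corank. -/
theorem large_trace {e : ℕ} (T : ι → κ → κ → ZMod 2) (h1 : GoodOne T (Fintype.card κ) e)
    (U : Submodule ℤ (κ → ℤ)) (hU : Sat2 U) (hk : 1 ≤ finrank ℤ (ann T U)) :
    finrank ℤ U + e < Fintype.card κ := by
  by_contra hcon
  push Not at hcon
  obtain ⟨w, hw, hwi⟩ := exists_red_independent_le (ann_sat T U) hk
  have hne : red (w 0) ≠ 0 := hwi.ne_zero 0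
  have h3 := finrank_span_red hU
  obtain ⟨x, hx, y, hy, hxy⟩ := h1 (red (w 0)) hne
    (Submodule.span (ZMod 2) (red '' (U : Set (κ → ℤ)))) (by omega)
  apply hxy
  refine om_span T _ _ ?_ x hx y hy
  rintro _ ⟨x, hx, rfl⟩ _ ⟨y, hy, rfl⟩
  have h4 := cast_rform T (w 0) x y
  rw [(mem_ann T U (w 0)).1 (hw 0) x hx y hy, Int.cast_zero] at h4
  exact h4.symm

theorem rigidity_aux {k d e : ℕ} (T : ι → κ → κ → ZMod 2)
    (h1 : GoodOne T (Fintype.card κ) e) (h2 : GoodMany T k d)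
    (he : 2 * d + Fintype.card ι + Fintype.card ν ≤ e)
    (F : (ι → ℤ) × (ν → ℤ) × (κ → ℤ) → (ι → ℤ) × (ν → ℤ) × (κ → ℤ) →
      (ι → ℤ) × (ν → ℤ) × (κ → ℤ) → ℤ)
    (hF : ∀ (v : (ι → ℤ) × (ν → ℤ) × (κ → ℤ)) (x y : κ → ℤ),
      F v (0, 0, x) (0, 0, y) = 3 * ∑ s, v.1 s * rform (T s) x y)
    (A B : Submodule ℤ ((ι → ℤ) × (ν → ℤ) × (κ → ℤ))) (hAB : IsCompl A B)
    (hA : ∀ x ∈ A, ∀ y ∈ A, ∀ z ∈ A, F x y z = 0)
    (hB : ∀ x ∈ B, ∀ y ∈ B, ∀ z ∈ B, F x y z = 0)
    (hkA : k ≤ finrank ℤ (A.map (LinearMap.fst ℤ (ι → ℤ) ((ν → ℤ) × (κ → ℤ)))))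
    (hkB : 1 ≤ finrank ℤ (B.map (LinearMap.fst ℤ (ι → ℤ) ((ν → ℤ) × (κ → ℤ))))) : False := by
  have ha := Submodule.finrank_mono (map_le_ann T F hF A hA)
  have hb := Submodule.finrank_mono (map_le_ann T F hF B hB)
  have hta := small_trace T h2 _ (trace_sat hAB) (hkA.trans ha)
  have htb := large_trace T h1 _ (trace_sat hAB.symm) (hkB.trans hb)
  have hra := rank_le A
  have hrb := rank_le B
  have hsum := finrank_add_of_isCompl hAB
  rw [finrank_prod, finrank_prod, finrank_pi, finrank_pi, finrank_pi] at hsum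
  have h5 := Submodule.finrank_le (A.map (LinearMap.fst ℤ (ι → ℤ) ((ν → ℤ) × (κ → ℤ))))
  have h6 := Submodule.finrank_le (B.map (LinearMap.fst ℤ (ι → ℤ) ((ν → ℤ) × (κ → ℤ))))
  rw [finrank_pi] at h5 h6
  omega

/-- The rank of a sublattice which is not zero is positive. -/
theorem one_le_rank {W : Type*} [AddCommGroup W] [Module.Free ℤ W] [Module.Finite ℤ W]
    {S : Submodule ℤ W} {x : W} (hx : x ∈ S) (h0 : x ≠ 0) : 1 ≤ finrank ℤ S := by
  have : Nontrivial S := ⟨⟨⟨x, hx⟩, 0, fun h => h0 (congrArg Subtype.val h)⟩⟩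
  exact Module.finrank_pos

/-- P2: one side of every splitting lies in the isotropic part. -/
theorem rigidity
    {k d e : ℕ} (T : ι → κ → κ → ZMod 2)
    (h1 : GoodOne T (Fintype.card κ) e) (h2 : GoodMany T k d)
    (hk : 2 * k ≤ Fintype.card ι) (he : 2 * d + Fintype.card ι + Fintype.card ν ≤ e)
    (F : (ι → ℤ) × (ν → ℤ) × (κ → ℤ) → (ι → ℤ) × (ν → ℤ) × (κ → ℤ) →
      (ι → ℤ) × (ν → ℤ) × (κ → ℤ) → ℤ)
    (hF : ∀ (v : (ι → ℤ) × (ν → ℤ) × (κ → ℤ)) (x y : κ → ℤ),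
      F v (0, 0, x) (0, 0, y) = 3 * ∑ s, v.1 s * rform (T s) x y)
    (A B : Submodule ℤ ((ι → ℤ) × (ν → ℤ) × (κ → ℤ))) (hAB : IsCompl A B)
    (hA : ∀ x ∈ A, ∀ y ∈ A, ∀ z ∈ A, F x y z = 0)
    (hB : ∀ x ∈ B, ∀ y ∈ B, ∀ z ∈ B, F x y z = 0) :
    (∀ v ∈ A, v.1 = 0) ∨ (∀ v ∈ B, v.1 = 0) := by
  by_contra hcon
  push Not at hcon
  obtain ⟨⟨v, hv, hv0⟩, ⟨w, hw, hw0⟩⟩ := hcon
  have hA1 : 1 ≤ finrank ℤ (A.map (LinearMap.fst ℤ (ι → ℤ) ((ν → ℤ) × (κ → ℤ)))) :=
    one_le_rank (Submodule.mem_map_of_mem hv) hv0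
  have hB1 : 1 ≤ finrank ℤ (B.map (LinearMap.fst ℤ (ι → ℤ) ((ν → ℤ) × (κ → ℤ)))) :=
    one_le_rank (Submodule.mem_map_of_mem hw) hw0
  have hsup : A.map (LinearMap.fst ℤ (ι → ℤ) ((ν → ℤ) × (κ → ℤ))) ⊔
      B.map (LinearMap.fst ℤ (ι → ℤ) ((ν → ℤ) × (κ → ℤ))) = ⊤ := by
    rw [← Submodule.map_sup, hAB.sup_eq_top, Submodule.map_top, LinearMap.range_eq_top]
    exact LinearMap.fst_surjective
  have hle := finrank_top_le _ _ hsup
  rw [finrank_pi] at hle
  rcases le_total (finrank ℤ (B.map (LinearMap.fst ℤ (ι → ℤ) ((ν → ℤ) × (κ → ℤ)))))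
    (finrank ℤ (A.map (LinearMap.fst ℤ (ι → ℤ) ((ν → ℤ) × (κ → ℤ))))) with h | h
  · exact rigidity_aux T h1 h2 he F hF A B hAB hA hB (by omega) hB1
  · exact rigidity_aux T h1 h2 he F hF B A hAB.symm hB hA (by omega) hA1

end main

end Helper57.MR
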