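import Pool.Agent.Helper57.MR.CountDefs

/-!
The alternating 3-form attached to a system of equations.
-/

namespace Helper57.MR

/-- The index set of the rigid directions: equations, two special ones, and two copies of
pairs of families. -/
abbrev Idx (M h : ℕ) := Fin M ⊕ Bool ⊕ (Bool × Bool × Fin h)

/-- The lattice carrying the form. -/
abbrev Sp (M h Ne : ℕ) := (Idx M h → ℤ) × (Fin Ne → ℤ) × (Fin h × Fin h → ℤ)

/-- First special index. -/
abbrev one {M h : ℕ} : Idx M h := Sum.inr (Sum.inl false)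

/-- Second special index. -/
abbrev two {M h : ℕ} : Idx M h := Sum.inr (Sum.inl true)

/-- Index of the first family, copy `s`. -/
abbrev iL {M h : ℕ} (s : Bool) (p : Fin h) : Idx M h := Sum.inr (Sum.inr (false, s, p))

/-- Index of the second family, copy `s`. -/
abbrev iQ {M h : ℕ} (s : Bool) (p : Fin h) : Idx M h := Sum.inr (Sum.inr (true, s, p))

/-- A linear form. -/
def lin {N : ℕ} (l x : Fin N → ℤ) : ℤ := ∑ j, l j * x j

/-- An alternating form. -/
def wform {N : ℕ} (w : Fin N → Fin N → ℤ) (x y : Fin N → ℤ) : ℤ :=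
  ∑ j, ∑ k, w j k * (x j * y k - x k * y j)

/-- The integral alternating form attached to an array over the field with two elements. -/
def rform {κ : Type*} [Fintype κ] (T : κ → κ → ZMod 2) (x y : κ → ℤ) : ℤ :=
  ∑ p, ∑ q, (((T p q).val : ℤ) - ((T q p).val : ℤ)) * (x p * y q)

/-- The data of a system of equations. -/
structure Sys (M Ne : ℕ) where
  c : Fin M → ℤ
  e : Fin M → ℤ
  l : Fin M → Fin Ne → ℤ
  l' : Fin M → Fin Ne → ℤ
  w : Fin M → Fin Ne → Fin Ne → ℤ

/-- The pair `x, y` solves the system at the parameter `a`. -/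
def Sys.Sol {M Ne : ℕ} (S : Sys M Ne) (a : ℤ) (x y : Fin Ne → ℤ) : Prop :=
  ∀ i, S.c i + S.e i * a + lin (S.l i) x + lin (S.l' i) y + wform (S.w i) x y = 0

variable {M h Ne : ℕ}

/-- The 2-forms which are the components of the 3-form. -/
def omg (S : Sys M Ne) (T : Idx M h → Fin h × Fin h → Fin h × Fin h → ZMod 2) (a : ℤ) :
    Idx M h → Sp M h Ne → Sp M h Ne → ℤ
  | Sum.inl i, u, v =>
      (S.c i + S.e i * a) * (u.1 one * v.1 two - u.1 two * v.1 one)
        + (u.1 one * lin (S.l' i) v.2.1 - v.1 one * lin (S.l' i) u.2.1)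
        - (u.1 two * lin (S.l i) v.2.1 - v.1 two * lin (S.l i) u.2.1)
        + wform (S.w i) u.2.1 v.2.1 + 3 * rform (T (Sum.inl i)) u.2.2 v.2.2
  | Sum.inr (Sum.inl b), u, v => 3 * rform (T (Sum.inr (Sum.inl b))) u.2.2 v.2.2
  | Sum.inr (Sum.inr (false, s, p)), u, v =>
      (∑ q, (u.1 (iQ s q) * v.2.2 (p, q) - v.1 (iQ s q) * u.2.2 (p, q)))
        + 3 * rform (T (iL s p)) u.2.2 v.2.2
  | Sum.inr (Sum.inr (true, s, p)), u, v => 3 * rform (T (iQ s p)) u.2.2 v.2.2

/-- The alternating 3-form. -/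
def mu (S : Sys M Ne) (T : Idx M h → Fin h × Fin h → Fin h × Fin h → ZMod 2) (a : ℤ)
    (u v w : Sp M h Ne) : ℤ :=
  ∑ i, (u.1 i * omg S T a i v w + v.1 i * omg S T a i w u + w.1 i * omg S T a i u v)

/-- A trilinear function splits if the lattice is a direct sum of two sublattices on which it
vanishes. -/
def Splits {V : Type*} [AddCommGroup V] (F : V → V → V → ℤ) : Prop :=
  ∃ A B : Submodule ℤ V, IsCompl A B ∧ (∀ x ∈ A, ∀ y ∈ A, ∀ z ∈ A, F x y z = 0) ∧
    (∀ x ∈ B, ∀ y ∈ B, ∀ z ∈ B, F x y z = 0)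

/-- The alternating 3-form with given coefficients: the sum of `c i j k` times the wedge product
of the coordinates `i`, `j`, `k`. -/
def formOf {n : ℕ} (c : Fin n → Fin n → Fin n → ℤ) (x y z : Fin n → ℤ) : ℤ :=
  ∑ i, ∑ j, ∑ k, c i j k *
    (x i * y j * z k - x i * y k * z j - x j * y i * z k + x j * y k * z i
      + x k * y i * z j - x k * y j * z i)

end Helper57.MR
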