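import Mathlib

/-!
Families of alternating forms over the field with two elements.
-/

namespace Helper57.MR

open Module

variable {ι κ : Type*} [Fintype ι] [Fintype κ]

/-- The trilinear form attached to an array `T`. -/
def tri (T : ι → κ → κ → ZMod 2) (a : ι → ZMod 2) (x y : κ → ZMod 2) : ZMod 2 :=
  ∑ s, ∑ p, ∑ q, a s * T s p q * x p * y q

/-- The alternating form attached to an array `T`, in the direction `a`. -/
def om (T : ι → κ → κ → ZMod 2) (a : ι → ZMod 2) (x y : κ → ZMod 2) : ZMod 2 :=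
  tri T a x y - tri T a y x

/-- No large subspace is isotropic in any direction `a ≠ 0`. -/
def GoodOne (T : ι → κ → κ → ZMod 2) (N e : ℕ) : Prop :=
  ∀ a : ι → ZMod 2, a ≠ 0 → ∀ U : Submodule (ZMod 2) (κ → ZMod 2),
    N ≤ finrank (ZMod 2) U + e → ∃ x ∈ U, ∃ y ∈ U, om T a x y ≠ 0

/-- No `2 d` independent vectors are pairwise isotropic for `k` independent directions. -/
def GoodMany (T : ι → κ → κ → ZMod 2) (k d : ℕ) : Prop :=
  ∀ w : Fin k → ι → ZMod 2, LinearIndependent (ZMod 2) w →
    ∀ u : Fin d ⊕ Fin d → κ → ZMod 2, LinearIndependent (ZMod 2) u →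
      ∃ l i j, om T (w l) (u (Sum.inl i)) (u (Sum.inr j)) ≠ 0

end Helper57.MR
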