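import Mathlib

/-!
MRDP, pieces A1 and E (part): finite intersections, composition with finitely many Diophantine
functions, and the clauses zero, succ, get, comp of `Nat.Primrec'`.
-/

namespace Pool.Agent.Helper57.MR

open Nat

/-- Finite intersections of Diophantine sets. -/
theorem forall_fin {α : Type} {n : ℕ} {S : Fin n → Set (α → ℕ)} (d : ∀ i, Dioph (S i)) :
    Dioph {v : α → ℕ | ∀ i, v ∈ S i} := by
  have h1 : (List.ofFn S).Forall Dioph := by
    rw [List.forall_iff_forall_mem]
    intro T hT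
    obtain ⟨i, rfl⟩ := (List.mem_ofFn' _ _).1 hT
    exact d i
  refine Dioph.ext (Dioph.DiophList.forall _ h1) fun v => ?_
  simp only [List.forall_iff_forall_mem]
  constructor
  · intro h i
    exact h (S i) ((List.mem_ofFn' _ _).2 ⟨i, rfl⟩)
  · intro h T hT
    obtain ⟨i, rfl⟩ := (List.mem_ofFn' _ _).1 hT
    exact h i

/-- (A1) Composition with finitely many Diophantine functions. -/
theorem comp_fin {α : Type} {n : ℕ} {S : Set (Fin n → ℕ)} (d : Dioph S)
    {g : Fin n → (α → ℕ) → ℕ} (dg : ∀ i, Dioph.DiophFn (g i)) :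
    Dioph {v : α → ℕ | (fun i => g i v) ∈ S} := by
  have h1 : Dioph {w : α ⊕ Fin n → ℕ | ∀ i, w ∈ {w : α ⊕ Fin n → ℕ |
      w ∘ (fun o : Option α => Option.elim' (Sum.inr i) Sum.inl o) ∈
        {v : Option α → ℕ | g i (v ∘ some) = v none}}} :=
    forall_fin fun i => Dioph.reindex_dioph (α ⊕ Fin n) _ (dg i)
  have h2 : Dioph {w : α ⊕ Fin n → ℕ | w ∘ Sum.inr ∈ S} := Dioph.reindex_dioph (α ⊕ Fin n) _ d
  refine Dioph.ext (Dioph.ex_dioph (h1.inter h2)) fun v => ?_
  constructor
  · rintro ⟨x, hx1, hx2⟩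
    have hx : (fun i => g i v) = x := by
      funext i
      exact hx1 i
    show (fun i => g i v) ∈ S
    rw [hx]
    exact hx2
  · intro h
    exact ⟨fun i => g i v, fun i => rfl, h⟩

/-- Composition of a Diophantine function with finitely many Diophantine functions. -/
theorem comp_fn {α : Type} {n : ℕ} {f : (Fin n → ℕ) → ℕ} (d : Dioph.DiophFn f)
    {g : Fin n → (α → ℕ) → ℕ} (dg : ∀ i, Dioph.DiophFn (g i)) :
    Dioph.DiophFn fun v : α → ℕ => f fun i => g i v := by
  have h1 : Dioph {v : Fin (n + 1) → ℕ | f (fun i => v i.succ) = v 0} := by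
    refine Dioph.ext (Dioph.reindex_dioph (Fin (n + 1))
      (fun o : Option (Fin n) => Option.elim' 0 Fin.succ o) d) fun v => ?_
    exact Iff.rfl
  have h2 : ∀ i : Fin (n + 1), Dioph.DiophFn fun v : Option α → ℕ =>
      (Fin.cases (v none) (fun i => g i (v ∘ some)) i : ℕ) := by
    intro i
    refine Fin.cases ?_ (fun i => ?_) i
    · exact Dioph.proj_dioph none
    · exact Dioph.reindex_diophFn some (dg i)
  refine Dioph.ext (comp_fin h1 h2) fun v => ?_
  exact Iff.rfl

/-- Clause zero of `Nat.Primrec'`. -/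
theorem zero_clause :
    Dioph.DiophFn fun v : Fin 0 → ℕ => (fun _ : List.Vector ℕ 0 => 0) (List.Vector.ofFn v) :=
  Dioph.const_dioph 0

/-- Clause succ of `Nat.Primrec'`. -/
theorem succ_clause :
    Dioph.DiophFn fun v : Fin 1 → ℕ =>
      (fun w : List.Vector ℕ 1 => Nat.succ w.head) (List.Vector.ofFn v) := by
  have h := Dioph.add_dioph (Dioph.proj_dioph (0 : Fin 1)) (Dioph.const_dioph (α := Fin 1) 1)
  have he : (fun v : Fin 1 → ℕ =>
      (fun w : List.Vector ℕ 1 => Nat.succ w.head) (List.Vector.ofFn v))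
      = fun v : Fin 1 → ℕ => v 0 + Function.const (Fin 1 → ℕ) 1 v := by
    funext v
    simp [List.Vector.ofFn]
  rw [he]
  exact h

/-- Clause get of `Nat.Primrec'`. -/
theorem get_clause {n : ℕ} (i : Fin n) :
    Dioph.DiophFn fun v : Fin n → ℕ =>
      (fun w : List.Vector ℕ n => w.get i) (List.Vector.ofFn v) := by
  have he : (fun v : Fin n → ℕ => (fun w : List.Vector ℕ n => w.get i) (List.Vector.ofFn v))
      = fun v : Fin n → ℕ => v i := by
    funext v
    simp
  rw [he]
  exact Dioph.proj_dioph i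

/-- Clause comp of `Nat.Primrec'`. -/
theorem comp_clause {m n : ℕ} {f : List.Vector ℕ n → ℕ} (g : Fin n → List.Vector ℕ m → ℕ)
    (hf : Dioph.DiophFn fun v : Fin n → ℕ => f (List.Vector.ofFn v))
    (hg : ∀ i, Dioph.DiophFn fun v : Fin m → ℕ => g i (List.Vector.ofFn v)) :
    Dioph.DiophFn fun v : Fin m → ℕ =>
      (fun a : List.Vector ℕ m => f (List.Vector.ofFn fun i => g i a)) (List.Vector.ofFn v) :=
  comp_fn hf hg

end Pool.Agent.Helper57.MR
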