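import Pool.Agent.Helper57.MR.CountDefs

namespace Helper57.MR

open Module

/-- P1: a family which is good in both senses exists, by counting. -/
theorem exists_family {ι κ : Type*} [Fintype ι] [Fintype κ] {m N k d d2 e : ℕ}
    (hm : Fintype.card ι = m) (hN : Fintype.card κ = N)
    (h1 : m + e * N + 2 ≤ d2 * d2) (h2 : 2 * d2 + e ≤ N)
    (h3 : k * m + 2 * d * N + 2 ≤ k * (d * d)) :
    ∃ T : ι → κ → κ → ZMod 2, GoodOne T N e ∧ GoodMany T k d := by
  sorry

end Helper57.MR
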