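import Pool.Agent.Helper57.MR.Rigid

namespace Helper57.MR

open Module

variable {M h Ne : ℕ}

/-- P3a: a solution of the system gives a splitting. -/
theorem splits_of_sol (S : Sys M Ne) (T : Idx M h → Fin h × Fin h → Fin h × Fin h → ZMod 2)
    (a : ℤ) (x y : Fin Ne → ℤ) (hxy : S.Sol a x y) : Splits (mu S T a : Sp M h Ne → _) := by
  sorry

/-- P3b: the 3-form on the rigid part. -/
theorem mu_rig (S : Sys M Ne) (T : Idx M h → Fin h × Fin h → Fin h × Fin h → ZMod 2)
    (a : ℤ) (v : Sp M h Ne) (x y : Fin h × Fin h → ℤ) :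
    mu S T a v (0, 0, x) (0, 0, y) = 3 * ∑ s, v.1 s * rform (T s) x y := by
  sorry

/-- P3c: sections of a sublattice on which the form vanishes give a solution. -/
theorem sol_of_sections (S : Sys M Ne)
    (T : Idx M h → Fin h × Fin h → Fin h × Fin h → ZMod 2) (a : ℤ)
    (g : Idx M h → Sp M h Ne) (hg : ∀ i, (g i).1 = Pi.single i 1)
    (h0 : ∀ i j k, mu S T a (g i) (g j) (g k) = 0) :
    S.Sol a (g one).2.1 (g two).2.1 := by
  sorry

/-- P3: the equivalence (from P1, P2, P3a, P3b, P3c). -/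
theorem splits_iff (S : Sys M Ne) : ∃ (h : ℕ)
    (T : Idx M h → Fin h × Fin h → Fin h × Fin h → ZMod 2), ∀ a : ℤ,
      Splits (mu S T a : Sp M h Ne → _) ↔ ∃ x y, S.Sol a x y := by
  sorry

/-- P4: polynomial equations with a parameter are such systems (helper50). -/
theorem poly_sys {n : ℕ} (P : MvPolynomial (Option (Fin n)) ℤ) : ∃ (M Ne : ℕ) (S : Sys M Ne),
    ∀ a : ℤ, (∃ t : Fin n → ℤ, MvPolynomial.eval (Option.elim' a t) P = 0) ↔
      ∃ x y, S.Sol a x y := by
  sorry

/-- P5a: transport to coordinates, affine in the parameter. -/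
theorem coords (S : Sys M Ne) (T : Idx M h → Fin h × Fin h → Fin h × Fin h → ZMod 2) :
    ∃ (n : ℕ) (c0 c1 : Fin n → Fin n → Fin n → ℤ), ∀ a : ℤ,
      Splits (formOf (fun i j k => c0 i j k + a * c1 i j k)) ↔
        Splits (mu S T a : Sp M h Ne → _) := by
  sorry

end Helper57.MR
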